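import Pool.Agent.X158.FingB

set_option autoImplicit false

namespace Pool.Agent.Results.MP_be7f3b_co.Fingerhut

open Filter Topology Pool.Agent.X158.Fing

universe u

/-- The perfect red-blue matching that pairs `r i` with `b (τ i)` has maximal total length among
all perfect red-blue matchings (a perfect matching is a bijection of the index set). -/
def IsMaxSumMatching {E : Type u} [NormedAddCommGroup E] {n : ℕ} (r b : Fin n → E)
    (τ : Equiv.Perm (Fin n)) : Prop :=
  ∀ σ : Equiv.Perm (Fin n), ∑ i, ‖r i - b (σ i)‖ ≤ ∑ i, ‖r i - b (τ i)‖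

/-- Finite-dimensional case with the identity matching. -/
lemma fin_case {V : Type*} [NormedAddCommGroup V] [InnerProductSpace ℝ V] [FiniteDimensional ℝ V]
    {n : ℕ} (hn : 1 ≤ n) (r b : Fin n → V)
    (hmax : ∀ σ : Equiv.Perm (Fin n), ∑ i, ‖r i - b (σ i)‖ ≤ ∑ i, ‖r i - b i‖) :
    ∃ o : V, ∀ i, ‖r i - o‖ + ‖b i - o‖ ≤ √2 * ‖r i - b i‖ := by
  have : ProperSpace V := FiniteDimensional.proper_real V
  have : Nonempty (Fin n) := ⟨⟨0, hn⟩⟩
  let f : Fin n → V → ℝ := fun i o => ‖o - r i‖ + (‖o - b i‖ + -(√2 * ‖r i - b i‖))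
  have hconv : ∀ i, ConvexOn ℝ Set.univ (f i) := by
    intro i
    exact (convex_norm_sub (r i)).add ((convex_norm_sub (b i)).add_const _)
  have hcont : ∀ i, Continuous (f i) := by
    intro i; simp only [f]; fun_prop
  have hco : ∀ i, Tendsto (f i) (cocompact V) atTop := by
    intro i
    have h1 := tendsto_atTop_add_const_right _ (-(√2 * ‖r i - b i‖)) (coercive_norm_sub (r i))
    refine tendsto_atTop_mono (fun o => ?_) h1
    simp only [f]
    linarith [norm_nonneg (o - b i)]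
  obtain ⟨o, ho⟩ := alt f hconv hcont hco (by
    intro μ hμ hs
    obtain ⟨π, hπ, hswap⟩ := exists_cpl μ hμ (fun i j => inner ℝ (r i) (b j))
    let ι := {p : Fin n × Fin n // 0 < π p.1 p.2}
    have hex : ∃ p : Fin n × Fin n, 0 < π p.1 p.2 := by
      by_contra hno
      push Not at hno
      have h0 : ∀ i j, π i j = 0 := fun i j => le_antisymm (hno (i, j)) (hπ.1 i j)
      have h1 : ∑ i, μ i = 0 := by
        apply Finset.sum_eq_zero
        intro i _
        rw [← hπ.2.1 i]
        exact Finset.sum_eq_zero (fun j _ => h0 i j)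
      rw [hs] at h1
      exact one_ne_zero h1
    have : Nonempty ι := by
      obtain ⟨p, hp⟩ := hex
      exact ⟨⟨p, hp⟩⟩
    obtain ⟨o, ho⟩ := diam (fun a : ι => r a.1.1) (fun a : ι => b a.1.2)
      (fun a c => hswap a.1.1 a.1.2 c.1.1 c.1.2 a.2 c.2)
    refine ⟨o, ?_⟩
    have hpair : ∀ i j, π i j * (‖o - r i‖ + ‖o - b j‖) ≤ π i j * (√2 * ‖r i - b j‖) := by
      intro i j
      rcases (hπ.1 i j).lt_or_eq with hpos | h0
      · apply mul_le_mul_of_nonneg_left _ hpos.le
        have h1 := ho ⟨(i, j), hpos⟩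
        simp only at h1
        have h2 : ‖r i - b j‖ ^ 2 = ‖r i - o‖ ^ 2 - 2 * inner ℝ (r i - o) (b j - o) + ‖b j - o‖ ^ 2 := by
          rw [← norm_sub_sq_real]
          congr 2
          abel
        have h3 : (‖o - r i‖ + ‖o - b j‖) ^ 2 ≤ (√2 * ‖r i - b j‖) ^ 2 := by
          rw [mul_pow, Real.sq_sqrt (by norm_num : (0 : ℝ) ≤ 2), h2, norm_sub_rev o (r i),
            norm_sub_rev o (b j)]
          nlinarith [sq_nonneg (‖r i - o‖ - ‖b j - o‖)]
        exact le_of_sq_le_sq h3 (by positivity)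
      · rw [← h0]; simp
    have e1 : ∑ i, μ i * f i o = ∑ i, ∑ j, π i j * (‖o - r i‖ + ‖o - b j‖) -
        √2 * ∑ i, μ i * ‖r i - b i‖ := by
      have h1 : ∑ i, ∑ j, π i j * (‖o - r i‖ + ‖o - b j‖) =
          ∑ i, μ i * ‖o - r i‖ + ∑ i, μ i * ‖o - b i‖ := by
        simp_rw [mul_add, Finset.sum_add_distrib]
        congr 1
        · apply Finset.sum_congr rfl
          intro i _
          rw [← Finset.sum_mul, hπ.2.1 i]
        · rw [Finset.sum_comm]
          apply Finset.sum_congr rfl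
          intro j _
          rw [← Finset.sum_mul, hπ.2.2 j]
      rw [h1, Finset.mul_sum, ← Finset.sum_add_distrib, ← Finset.sum_sub_distrib]
      apply Finset.sum_congr rfl
      intro i _
      simp only [f]; ring
    have e2 : ∑ i, ∑ j, π i j * (‖o - r i‖ + ‖o - b j‖) ≤ √2 * ∑ i, ∑ j, π i j * ‖r i - b j‖ := by
      rw [Finset.mul_sum]
      apply Finset.sum_le_sum
      intro i _
      rw [Finset.mul_sum]
      apply Finset.sum_le_sum
      intro j _
      have := hpair i j
      linarith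
    have hle1 : ∀ i, μ i ≤ 1 := by
      intro i
      rw [← hs]
      exact Finset.single_le_sum (fun k _ => hμ k) (Finset.mem_univ i)
    have e3 := cpl_le μ hle1 (fun i j => ‖r i - b j‖) hmax π hπ
    have e4 : √2 * ∑ i, ∑ j, π i j * ‖r i - b j‖ ≤ √2 * ∑ i, μ i * ‖r i - b i‖ :=
      mul_le_mul_of_nonneg_left e3 (Real.sqrt_nonneg 2)
    rw [e1]
    linarith)
  refine ⟨o, fun i => ?_⟩
  have h1 := ho i
  simp only [f] at h1
  rw [norm_sub_rev o (r i), norm_sub_rev o (b i)] at h1
  linarith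

/-- The colorful Fingerhut statement holds in every real inner product space. -/
theorem result (E : Type u) [NormedAddCommGroup E] [InnerProductSpace ℝ E] (n : ℕ) (hn : 1 ≤ n)
    (r b : Fin n → E) (τ : Equiv.Perm (Fin n)) (hτ : IsMaxSumMatching r b τ) :
    ∃ o : E, ∀ i, ‖r i - o‖ + ‖b (τ i) - o‖ ≤ √2 * ‖r i - b (τ i)‖ := by
  let W : Submodule ℝ E := Submodule.span ℝ (Set.range r ∪ Set.range b)
  have hfin : FiniteDimensional ℝ W :=
    FiniteDimensional.span_of_finite ℝ ((Set.finite_range r).union (Set.finite_range b))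
  let r' : Fin n → W := fun i => ⟨r i, Submodule.subset_span (Or.inl ⟨i, rfl⟩)⟩
  let b' : Fin n → W := fun i => ⟨b (τ i), Submodule.subset_span (Or.inr ⟨τ i, rfl⟩)⟩
  have hmax : ∀ σ : Equiv.Perm (Fin n), ∑ i, ‖r' i - b' (σ i)‖ ≤ ∑ i, ‖r' i - b' i‖ := by
    intro σ
    exact hτ (σ.trans τ)
  obtain ⟨o, ho⟩ := fin_case hn r' b' hmax
  exact ⟨o, fun i => ho i⟩

end Pool.Agent.Results.MP_be7f3b_co.Fingerhut
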